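import Pool.Agent.Helper71.SD.Goals

/-!
Packet TW5 of the disproof of `MP_dcced1_gt`: free maps of finite graphs are homotopic to constant
maps in the big graph.
-/

namespace Pool.Agent.Helper71.SD.TW5

open Pool.Agent.Helper71.AHtpy SimpleGraph

theorem near_of_TN {s t : BV} (h : TN s.1 t.1) : Near BG s t := by
  by_cases hst : s = t
  · exact Or.inl hst
  · refine Or.inr ⟨hst, ?_⟩
    rcases h with h | h
    · exact absurd (Subtype.ext h) hst
    · exact h

theorem TN_of_near {s t : BV} (h : Near BG s t) : TN s.1 t.1 := by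
  rcases h with h | h
  · exact Or.inl (congrArg Subtype.val h)
  · exact Or.inr h.2

theorem tw5 : S_TW5 := by
  intro H _ A g hg hfree
  obtain ⟨m, ⟨e⟩⟩ := Finite.exists_equiv_fin H
  let A' : SimpleGraph (Fin m) := A.comap e.symm
  have hA' : ∀ i j, A'.Adj i j ↔ A.Adj (e.symm i) (e.symm j) := fun i j => Iff.rfl
  let g' : Fin m → T := fun i => (g (e.symm i)).1
  have hv1 : ∀ i, Valid (g' i) := fun i => (g (e.symm i)).2
  have hv2 : TGM A' g' := by
    intro i j hij
    exact TN_of_near (hg _ _ hij)
  have hv3 : Free T.base A' g' := by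
    rintro ⟨q, hq1, hq2⟩
    apply hfree
    refine ⟨fun S => e.symm (q S), fun S hS => Subtype.ext (hq1 S hS), ?_⟩
    intro S S' hS hS' hadj
    rcases hq2 S S' hS hS' hadj with h | h
    · exact Or.inl (congrArg e.symm h)
    · exact Or.inr h
  have hvc : ∀ i l, l ≤ 7 → Valid (T.cyl m A' g' i l) := fun i l hl => ⟨hv1, hv2, hv3, hl⟩
  have hva : Valid (T.apex m A' g') := ⟨hv1, hv2, hv3⟩
  let Φ : ℕ → H → BV := fun l h =>
    if l = 0 then g h else if hl : l ≤ 8 then
      ⟨T.cyl m A' g' (e h) (l - 1), hvc _ _ (by omega)⟩ else ⟨T.apex m A' g', hva⟩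
  have hΦ0 : Φ 0 = g := by
    funext h
    simp [Φ]
  have hΦc : ∀ l (_ : l ≠ 0) (hl : l ≤ 8) h,
      Φ l h = ⟨T.cyl m A' g' (e h) (l - 1), hvc _ _ (by omega)⟩ := by
    intro l h0 hl h
    simp [Φ, h0, hl]
  have hΦa : ∀ l, 9 ≤ l → ∀ h, Φ l h = ⟨T.apex m A' g', hva⟩ := by
    intro l hl h
    have h0 : l ≠ 0 := by omega
    have h8 : ¬ l ≤ 8 := by omega
    simp [Φ, h0, h8]
  refine ⟨9, Φ, ⟨T.apex m A' g', hva⟩, hΦ0, ?_, ?_, fun l hl i => hΦa l hl i, ?_⟩
  · intro l
    rcases Nat.eq_zero_or_pos l with h0 | h0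
    · subst h0
      rw [hΦ0]
      exact hg
    · rcases Nat.lt_or_ge 8 l with h8 | h8
      · intro a b _
        rw [hΦa l h8, hΦa l h8]
        exact Or.inl rfl
      · intro a b hab
        rw [hΦc l (by omega) h8, hΦc l (by omega) h8]
        apply near_of_TN
        refine Or.inr (Or.inl (TE.hor _ _ _ _ _ _ ?_))
        rw [hA', e.symm_apply_apply, e.symm_apply_apply]
        exact hab
  · intro l i
    rcases Nat.eq_zero_or_pos l with h0 | h0
    · subst h0
      rw [hΦ0, hΦc (0 + 1) (by omega) (by omega)]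
      apply near_of_TN
      refine Or.inr (Or.inr ?_)
      have h := TE.foot m A' g' (e i)
      have h2 : g' (e i) = (g i).1 := by
        change (g (e.symm (e i))).1 = (g i).1
        rw [e.symm_apply_apply]
      rw [h2] at h
      exact h
    · rcases Nat.lt_or_ge 8 l with h8 | h8
      · rw [hΦa l h8, hΦa (l + 1) (by omega)]
        exact Or.inl rfl
      · rcases Nat.lt_or_ge l 8 with h7 | h7
        · rw [hΦc l (by omega) h8, hΦc (l + 1) (by omega) (by omega)]
          apply near_of_TN
          refine Or.inr (Or.inl ?_)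
          have h := TE.ver m A' g' (e i) (l - 1)
          have h2 : l - 1 + 1 = l + 1 - 1 := by omega
          rw [h2] at h
          exact h
        · have hl8 : l = 8 := by omega
          subst hl8
          rw [hΦc 8 (by omega) le_rfl, hΦa (8 + 1) (by omega)]
          apply near_of_TN
          exact Or.inr (Or.inl (TE.top m A' g' (e i)))
  · intro l hl i y
    rcases Nat.lt_or_ge 8 l with h8 | h8
    · rw [hΦa l h8]
      intro h
      have := congrArg Subtype.val h
      simp at this
    · rw [hΦc l (by omega) h8]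
      intro h
      have := congrArg Subtype.val h
      simp at this

end Pool.Agent.Helper71.SD.TW5
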